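import Pool.Agent.Helper79.UN.NGoals
import Pool.Agent.Helper79.UN.Lib

/-! Packet EX2 (MP_57a173_lc, part N): extensionality, second part. -/

namespace UN.PkEX2

open Pool.Agent.Helper97.Ku NU UL

theorem ext_iff {L : Type} [CompleteBooleanAlgebra L] {φ ψ : BSet L → L}
    (h : BSet.Ext φ) (k : BSet.Ext ψ) : BSet.Ext (fun x => iffV (φ x) (ψ x)) :=
  BSet.Ext.inf (BSet.Ext.himp h k) (BSet.Ext.himp k h)

theorem ext_bas {L : Type} [CompleteBooleanAlgebra L] {r : BSet L → ℕ → L}
    (h : ∀ n, BSet.Ext (fun x => r x n)) (σ : List Bool) :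
    BSet.Ext (fun x => basV (r x) σ) := by
  unfold basV
  refine BSet.Ext.iInf fun i => ?_
  by_cases hi : σ.get i = true
  · simp only [if_pos hi]
    exact h _
  · simp only [if_neg hi]
    exact BSet.Ext.compl (h _)

theorem ext_op {L : Type} [CompleteBooleanAlgebra L] {r : BSet L → ℕ → L}
    (h : ∀ n, BSet.Ext (fun x => r x n)) (q : List Bool → L) :
    BSet.Ext (fun x => opV q (r x)) :=
  BSet.Ext.iSup fun σ => BSet.Ext.inf (BSet.Ext.const _) (ext_bas h σ)

theorem ext_ev {L : Type} [CompleteBooleanAlgebra L] {J : Type} {V : BSet L → J → L}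
    (h : ∀ j, BSet.Ext (fun x => V x j)) (c : PF J) :
    BSet.Ext (fun x => c.ev (V x)) := by
  induction c with
  | atom j => exact h j
  | neg c ih => exact BSet.Ext.compl ih
  | or c ih => exact BSet.Ext.iSup ih

theorem ex2_pf : U_EX2 := by
  intro L _ J v K A
  have hrl : ∀ n : ℕ, BSet.Ext (fun x => rl A x n) := fun n =>
    ((UN.Lib.ex1 L).2.1 A (nn n)).2.2
  refine ⟨hrl, ext_bas hrl, ext_op hrl, fun q => ⟨?_, ?_⟩, fun c => ?_, fun W x => ⟨?_, ?_⟩, ?_, ?_⟩
  · exact BSet.Ext.iSup fun n => BSet.Ext.compl (ext_op hrl (q n))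
  · exact BSet.Ext.iInf fun n => ext_op hrl (q n)
  · refine ext_ev (V := fun x => Sum.elim (rl A x) v) (fun j => ?_) c
    cases j with
    | inl n => exact hrl n
    | inr j => exact BSet.Ext.const _
  · refine ext_ev (V := fun y => Sum.elim (Sum.elim (rl A x) (rl A y)) v) (fun j => ?_) W
    rcases j with (n | n) | j
    · exact BSet.Ext.const _
    · exact hrl n
    · exact BSet.Ext.const _
  · refine ext_ev (V := fun y => Sum.elim (Sum.elim (rl A y) (rl A x)) v) (fun j => ?_) W
    rcases j with (n | n) | j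
    · exact hrl n
    · exact BSet.Ext.const _
    · exact BSet.Ext.const _
  · exact BSet.Ext.iSup fun q => BSet.Ext.iInf fun x => BSet.Ext.himp (BSet.Ext.const _)
      (ext_iff (BSet.Ext.mem_right x) (BSet.Ext.const _))
  · exact BSet.Ext.iSup fun c => BSet.Ext.iInf fun x => BSet.Ext.himp (BSet.Ext.const _)
      (ext_iff (BSet.Ext.mem_right x) (BSet.Ext.const _))

end UN.PkEX2
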